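import Pool.Agent.helper53.DC.SpecK

set_option autoImplicit false

namespace Pool.Agent.helper89.DC

open Pool.Agent.helper53.DC

theorem K5 (hA4c : A4c_stmt) : K5_stmt := by
  intro B W _ M cs H m w w' hD hc a b p hp
  have hl : ∀ h ∈ H, ∀ a : Wall cs, lab cs H a = lab cs H (h • a) := by
    intro h hh a
    exact (lab_eq cs).2 ⟨h, hh, rfl⟩
  have hsym : ∀ r r' : Wall cs, (cw cs).Cross r r' → (cw cs).Cross r' r := by
    intro r r' h b b'
    rw [Set.inter_comm]
    exact h b' b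
  have hne : lab cs H w ≠ lab cs H w' := hD.a1 w w' hc
  have hadj : ∀ u u' : Wall cs, (TG cs H w w').Adj u u' → (cw cs).Cross u u' ∧
      ((lab cs H u = lab cs H w ∧ lab cs H u' = lab cs H w') ∨
        (lab cs H u = lab cs H w' ∧ lab cs H u' = lab cs H w)) := by
    rintro u u' ⟨_, h, hh, ⟨h1, h2⟩ | ⟨h1, h2⟩⟩
    · refine ⟨?_, Or.inl ⟨?_, ?_⟩⟩
      · rw [← h1, ← h2]
        exact ((hA4c cs h).1 _ _).2 hc
      · rw [← h1, ← hl h hh]
      · rw [← h2, ← hl h hh]
    · refine ⟨?_, Or.inr ⟨?_, ?_⟩⟩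
      · rw [← h1, ← h2]
        exact ((hA4c cs h).1 _ _).2 (hsym _ _ hc)
      · rw [← h1, ← hl h hh]
      · rw [← h2, ← hl h hh]
  constructor
  · intro i hi
    exact (hadj _ _ (p.adj_getVert_succ hi)).1
  · intro i hi
    have h1 := (hadj _ _ (p.adj_getVert_succ (i := i) (by omega))).2
    have h2 := (hadj _ _ (p.adj_getVert_succ (i := i + 1) (by omega))).2
    apply hD.c
    · intro h3
      have h4 := hp.getVert_injOn (by simp only [Set.mem_setOf_eq]; omega)
        (by simp only [Set.mem_setOf_eq]; omega) h3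
      omega
    · rw [add_assoc] at h2
      rcases h1 with ⟨a1, a2⟩ | ⟨a1, a2⟩ <;> rcases h2 with ⟨b1, b2⟩ | ⟨b1, b2⟩
      · exact absurd (b1.symm.trans a2) hne
      · exact a1.trans b2.symm
      · exact a1.trans b2.symm
      · exact absurd (a2.symm.trans b1) hne

end Pool.Agent.helper89.DC
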