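import Pool.Agent.helper53.DC.SpecV

set_option autoImplicit false

namespace Pool.Agent.helper89.DC

open Pool.Agent.helper53.DC

theorem V6a (hA14 : A14_stmt) (hA15 : A15_stmt) (hA19 : A19_stmt) : V6a_stmt := by
  intro B W _ _ M cs H hH R w
  classical
  have : Nonempty (Wall cs) := ⟨w⟩
  have : Finite (W ⧸ H) := Subgroup.finite_quotient_of_finiteIndex
  have hch : ∀ c : B × (W ⧸ H), ∃ z0 : W, (∃ z, w.1 * z = z * cs.simple c.1 ∧ ((z⁻¹ : W) : W ⧸ H) = c.2) →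
      w.1 * z0 = z0 * cs.simple c.1 ∧ ((z0⁻¹ : W) : W ⧸ H) = c.2 := by
    intro c
    by_cases h : ∃ z, w.1 * z = z * cs.simple c.1 ∧ ((z⁻¹ : W) : W ⧸ H) = c.2
    · obtain ⟨z, hz⟩ := h
      exact ⟨z, fun _ => hz⟩
    · exact ⟨1, fun h2 => absurd h2 h⟩
  choose g hg using hch
  refine ⟨⋃ c : B × (W ⧸ H), {u : Wall cs | DD cs u (g c) ≤ 2 * R + 1}, ?_, ?_⟩
  · apply Set.finite_iUnion
    intro c
    have hf := hA19 cs (g c) (2 * R + 1)
    apply Set.Finite.of_injOn (f := fun u : Wall cs => u.1 * g c) _ _ hf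
    · intro u hu
      exact hu
    · intro u _ u' _ huu
      exact Subtype.ext (mul_right_cancel huu)
  · rintro u' ⟨x, y, hxy, hw, hu⟩
    obtain ⟨X, v, hG, h0, hn⟩ := hA14 cs x y
    obtain ⟨hd, hsep, hinj, hcr, _⟩ := hA15 cs _ X v hG
    rw [← h0, ← hn] at hw hu
    obtain ⟨k, hk, hwk⟩ := hcr w hw
    obtain ⟨l, hl, hul⟩ := hcr u' hu
    obtain ⟨i, hi⟩ := hG.adj k hk
    have hst := hG.step k hk
    rw [← hwk] at hst
    have hz : w.1 * X k = X k * cs.simple i := by rw [← hst, hi]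
    obtain ⟨j, hj⟩ := hG.adj l hl
    have hst2 := hG.step l hl
    rw [← hul] at hst2
    have hz2 : DD cs u' (X l) = 1 := by
      rw [← mem_Car]
      exact ⟨j, by rw [← hst2, hj]⟩
    have hkl : dd cs (X k) (X l) ≤ R := by
      rcases le_total k l with h | h
      · rw [hd k l h hl.le]
        omega
      · rw [dd_comm, hd l k h hk.le]
        omega
    have hD : DD cs u' (X k) ≤ 2 * R + 1 := by
      have := DD_le cs u' (X k) (X l)
      omega
    set c : B × (W ⧸ H) := (i, (((X k)⁻¹ : W) : W ⧸ H)) with hc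
    obtain ⟨h1, h2⟩ := hg c ⟨X k, hz, rfl⟩
    have hmem : X k * (g c)⁻¹ ∈ H := by
      have h3 : (((X k)⁻¹ : W) : W ⧸ H) = (((g c)⁻¹ : W) : W ⧸ H) := h2.symm
      rw [QuotientGroup.eq] at h3
      simpa using h3
    refine ⟨X k * (g c)⁻¹, hmem, ?_, (X k * (g c)⁻¹)⁻¹ • u', ?_, ?_⟩
    · apply Subtype.ext
      rw [smul_wall_val]
      have e1 : w.1 = X k * cs.simple i * (X k)⁻¹ := by rw [← hz]; group
      have e2 : (g c)⁻¹ * w.1 * g c = cs.simple i := by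
        rw [mul_assoc, h1, inv_mul_cancel_left]
      calc X k * (g c)⁻¹ * w.1 * (X k * (g c)⁻¹)⁻¹ = X k * ((g c)⁻¹ * w.1 * g c) * (X k)⁻¹ := by group
        _ = w.1 := by rw [e2, ← e1]
    · rw [Set.mem_iUnion]
      refine ⟨c, ?_⟩
      show DD cs ((X k * (g c)⁻¹)⁻¹ • u') (g c) ≤ 2 * R + 1
      have e3 : g c = (X k * (g c)⁻¹)⁻¹ * X k := by group
      have e4 := DD_smul cs (X k * (g c)⁻¹)⁻¹ u' (X k)
      rw [← e3] at e4
      rw [e4]
      exact hD
    · rw [smul_inv_smul]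

end Pool.Agent.helper89.DC
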