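import Pool.Agent.helper53.DC.SpecV

set_option autoImplicit false

namespace Pool.Agent.helper89.DC

open Pool.Agent.helper53.DC

theorem V6c : V6c_stmt := by
  intro B W _ M cs H N w w' hN hNH hlab
  have hl : ∀ h ∈ H, ∀ a : Wall cs, lab cs H a = lab cs H (h • a) := by
    intro h hh a
    exact (lab_eq cs).2 ⟨h, hh, rfl⟩
  refine ⟨?_, ?_, ?_⟩
  · intro u u'
    ext q
    constructor
    · rintro ⟨h, hh, hq, h1⟩
      exact ⟨h, hh, hq, by tauto⟩
    · rintro ⟨h, hh, hq, h1⟩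
      exact ⟨h, hh, hq, by tauto⟩
  · intro h hh u u'
    ext q
    constructor
    · rintro ⟨g, hg, hq, h1⟩
      refine ⟨((h⁻¹ * g : W) : W ⧸ N), ⟨h⁻¹ * g, H.mul_mem (H.inv_mem hh) hg, rfl, ?_⟩, ?_⟩
      · rw [mul_smul, mul_smul, inv_smul_eq_iff, inv_smul_eq_iff, inv_smul_eq_iff, inv_smul_eq_iff]
        exact h1
      · show ((h * (h⁻¹ * g) : W) : W ⧸ N) = q
        rw [mul_inv_cancel_left, hq]
    · rintro ⟨q', ⟨g, hg, hq, h1⟩, h2⟩
      refine ⟨h * g, H.mul_mem hh hg, ?_, ?_⟩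
      · rw [← h2, hq]
        rfl
      · rw [mul_smul, mul_smul, smul_left_cancel_iff, smul_left_cancel_iff, smul_left_cancel_iff,
          smul_left_cancel_iff]
        exact h1
  · intro u u' v v' h1 h2 he hlv
    obtain ⟨_, h, hh, h3⟩ := h1
    have hm : (h : W ⧸ N) ∈ ec cs H N w w' u u' := ⟨h, hh, rfl, h3⟩
    rw [he] at hm
    obtain ⟨h', hh', hq, h4⟩ := hm
    rw [QuotientGroup.eq] at hq
    have hn : h' * h⁻¹ ∈ N := by
      have := hN.conj_mem _ hq h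
      have e : h * (h⁻¹ * h') * h⁻¹ = h' * h⁻¹ := by group
      rwa [e] at this
    refine ⟨h' * h⁻¹, hn, ?_⟩
    rcases h3 with ⟨a1, a2⟩ | ⟨a1, a2⟩ <;> rcases h4 with ⟨b1, b2⟩ | ⟨b1, b2⟩
    · rw [← a1, ← a2, ← b1, ← b2, mul_smul, mul_smul, inv_smul_smul, inv_smul_smul]
      exact ⟨rfl, rfl⟩
    · exfalso
      apply hlab
      rw [hl h hh w, a1, hlv, ← b1, ← hl h' hh' w']
    · exfalso
      apply hlab
      rw [hl h' hh' w, b1, ← hlv, ← a1, ← hl h hh w']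
    · rw [← a1, ← a2, ← b1, ← b2, mul_smul, mul_smul, inv_smul_smul, inv_smul_smul]
      exact ⟨rfl, rfl⟩

end Pool.Agent.helper89.DC
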